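import Mathlib

/-! Lopsided Lovasz local lemma for uniformly random (colour preserving) bijections
(Lu - Szekely). Canonical events are finite sets of pairs `(p, v)`; the bijection `π` satisfies the
event `e` when `π p = v` for all pairs of `e`. Two events conflict if they cannot hold together. -/

namespace Pool.Agent.THC.H5

open Finset
open scoped Classical

variable {P V C : Type}

/-- `π` satisfies the event `e` -/
def Sat (π : P ≃ V) (e : Finset (P × V)) : Prop := ∀ x ∈ e, π x.1 = x.2

/-- two events conflict -/
def Conf (e f : Finset (P × V)) : Prop :=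
  ∃ x ∈ e, ∃ y ∈ f, (x.1 = y.1 ∧ x.2 ≠ y.2) ∨ (x.1 ≠ y.1 ∧ x.2 = y.2)

/-- the permutation of `V` which moves the values of a list of pairs to the values of `t` -/
noncomputable def sigL : List (P × V) → (P → V) → Equiv.Perm V
  | [], _ => 1
  | (x :: l), t => Equiv.swap (sigL l t x.2) (t x.1) * sigL l t

theorem sigL_congr (l : List (P × V)) (t t' : P → V) (h : ∀ x ∈ l, t x.1 = t' x.1) :
    sigL l t = sigL l t' := by
  induction l with
  | nil => rfl
  | cons x l ih =>
    have h1 : sigL l t = sigL l t' := ih fun y hy => h y (List.mem_cons_of_mem _ hy)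
    have h2 : t x.1 = t' x.1 := h x (List.mem_cons_self ..)
    simp only [sigL, h1, h2]

theorem sigL_prop (l : List (P × V)) (t : P → V) (ht : Function.Injective t)
    (h1 : (l.map Prod.fst).Nodup) (h2 : (l.map Prod.snd).Nodup) :
    (∀ x ∈ l, sigL l t x.2 = t x.1) ∧
    (∀ v, v ∉ l.map Prod.snd → sigL l t v = v ∨ sigL l t v ∈ l.map Prod.snd) := by
  induction l with
  | nil => simp [sigL]
  | cons x l ih =>
    rw [List.map_cons, List.nodup_cons] at h1 h2
    obtain ⟨ih1, ih2⟩ := ih h1.2 h2.2
    have hu : ∀ y ∈ l, t y.1 ≠ t x.1 := by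
      intro y hy hc
      apply h1.1
      rw [← ht hc]
      exact List.mem_map_of_mem hy
    have hv : ∀ y ∈ l, t y.1 ≠ sigL l t x.2 := by
      intro y hy hc
      rw [← ih1 y hy] at hc
      have := (sigL l t).injective hc
      apply h2.1
      rw [← this]
      exact List.mem_map_of_mem hy
    constructor
    · intro y hy
      rcases List.mem_cons.1 hy with rfl | hy
      · simp [sigL, Equiv.Perm.mul_apply]
      · simp only [sigL, Equiv.Perm.mul_apply, ih1 y hy]
        exact Equiv.swap_apply_of_ne_of_ne (hv y hy) (hu y hy)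
    · intro v hv'
      rw [List.map_cons, List.mem_cons, not_or] at hv'
      have hne : sigL l t v ≠ sigL l t x.2 := fun hc => hv'.1 ((sigL l t).injective hc)
      simp only [sigL, Equiv.Perm.mul_apply]
      by_cases hw : sigL l t v = t x.1
      · right
        rw [hw, Equiv.swap_apply_right]
        rcases ih2 x.2 h2.1 with h | h
        · rw [h]; simp
        · rw [List.map_cons]; exact List.mem_cons_of_mem _ h
      · rw [Equiv.swap_apply_of_ne_of_ne hne hw]
        rcases ih2 v hv'.2 with h | h
        · left; exact h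
        · right; rw [List.map_cons]; exact List.mem_cons_of_mem _ h

theorem sigL_col (cV : V → C) (l : List (P × V)) (t : P → V)
    (h : ∀ x ∈ l, cV (t x.1) = cV x.2) (v : V) : cV (sigL l t v) = cV v := by
  induction l generalizing v with
  | nil => simp [sigL]
  | cons x l ih =>
    have ih' := ih fun y hy => h y (List.mem_cons_of_mem _ hy)
    simp only [sigL, Equiv.Perm.mul_apply]
    have hx : cV (t x.1) = cV x.2 := h x (List.mem_cons_self ..)
    by_cases h1 : sigL l t v = sigL l t x.2
    · rw [h1, Equiv.swap_apply_left, hx, ← ih' x.2, ← h1, ih' v]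
    · by_cases h2 : sigL l t v = t x.1
      · rw [h2, Equiv.swap_apply_right, ih' x.2, ← hx, ← h2, ih' v]
      · rw [Equiv.swap_apply_of_ne_of_ne h1 h2, ih' v]

variable [Fintype P] [Fintype V]

/-- colour preserving bijections -/
noncomputable def SC (cP : P → C) (cV : V → C) : Finset (P ≃ V) :=
  univ.filter fun π => ∀ p, cV (π p) = cP p

/-- colour preserving bijections that avoid all events of `B` -/
noncomputable def AV (cP : P → C) (cV : V → C) (B : Finset (Finset (P × V))) : Finset (P ≃ V) :=
  (SC cP cV).filter fun π => ∀ f ∈ B, ¬ Sat π f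

/-- lopsided property -/
theorem lop (cP : P → C) (cV : V → C) (e : Finset (P × V)) (B : Finset (Finset (P × V)))
    (hB : ∀ f ∈ B, ¬ Conf e f) :
    ((AV cP cV B).filter fun π => Sat π e).card * (SC cP cV).card ≤
      ((SC cP cV).filter fun π => Sat π e).card * (AV cP cV B).card := by
  by_cases hne : ∃ π ∈ SC cP cV, Sat π e
  swap
  · have : (AV cP cV B).filter (fun π => Sat π e) = ∅ := by
      rw [filter_eq_empty_iff]
      intro π hπ hs
      exact hne ⟨π, (mem_filter.1 hπ).1, hs⟩
    rw [this]; simp
  obtain ⟨π₀, hπ₀, hs₀⟩ := hne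
  have hcol : ∀ x ∈ e, cV x.2 = cP x.1 := by
    intro x hx
    rw [← hs₀ x hx]
    exact (mem_filter.1 hπ₀).2 x.1
  have hi1 : (e.toList.map Prod.fst).Nodup := by
    rw [List.nodup_map_iff_inj_on (nodup_toList e)]
    intro x hx y hy h
    rw [mem_toList] at hx hy
    have := hs₀ x hx
    rw [h, hs₀ y hy] at this
    exact Prod.ext h this.symm
  have hi2 : (e.toList.map Prod.snd).Nodup := by
    rw [List.nodup_map_iff_inj_on (nodup_toList e)]
    intro x hx y hy h
    rw [mem_toList] at hx hy
    have h1 := hs₀ x hx
    have h2 := hs₀ y hy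
    rw [h, ← h2] at h1
    exact Prod.ext (π₀.injective h1) h
  rw [← card_product, ← card_product]
  apply card_le_card_of_injOn
    (fun x => (x.2.trans (sigL e.toList x.2).symm, x.1.trans (sigL e.toList x.2)))
  · rintro ⟨π, τ⟩ hx
    simp only [coe_product, Set.mem_prod, mem_coe, mem_filter] at hx ⊢
    obtain ⟨⟨hπ, hs⟩, hτ⟩ := hx
    obtain ⟨hπ1, hπ2⟩ := mem_filter.1 hπ
    have hπc := (mem_filter.1 hπ1).2
    have hτc := (mem_filter.1 hτ).2
    obtain ⟨p1, p2⟩ := sigL_prop e.toList τ τ.injective hi1 hi2
    have hc : ∀ v, cV (sigL e.toList τ v) = cV v := by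
      intro v
      apply sigL_col
      intro x hx
      rw [mem_toList] at hx
      rw [hτc, hcol x hx]
    refine ⟨⟨?_, ?_⟩, ?_⟩
    · refine mem_filter.2 ⟨mem_univ _, fun p => ?_⟩
      rw [Equiv.trans_apply, ← hc, Equiv.apply_symm_apply]
      exact hτc p
    · intro x hx
      rw [Equiv.trans_apply, Equiv.symm_apply_eq]
      exact (p1 x (mem_toList.2 hx)).symm
    · refine mem_filter.2 ⟨mem_filter.2 ⟨mem_univ _, fun p => ?_⟩, ?_⟩
      · rw [Equiv.trans_apply, hc]
        exact hπc p
      · intro f hf hsf
        apply hπ2 f hf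
        intro y hy
        have hy' := hsf y hy
        rw [Equiv.trans_apply] at hy'
        by_cases hd : ∃ x ∈ e, x.1 = y.1
        · obtain ⟨x, hx, hxy⟩ := hd
          have h2 : x.2 = y.2 := by
            by_contra h
            exact hB f hf ⟨x, hx, y, hy, Or.inl ⟨hxy, h⟩⟩
          rw [← hxy, hs x hx, h2]
        · push Not at hd
          have hne2 : ∀ x ∈ e, x.2 ≠ y.2 := by
            intro x hx h
            exact hB f hf ⟨x, hx, y, hy, Or.inr ⟨hd x hx, h⟩⟩
          have hvn : π y.1 ∉ e.toList.map Prod.snd := by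
            intro h
            obtain ⟨x, hx, hxe⟩ := List.mem_map.1 h
            rw [mem_toList] at hx
            rw [← hs x hx] at hxe
            exact hd x hx (π.injective hxe)
          rcases p2 _ hvn with h | h
          · rw [← hy', h]
          · exfalso
            rw [hy'] at h
            obtain ⟨x, hx, hxe⟩ := List.mem_map.1 h
            exact hne2 x (mem_toList.1 hx) hxe
  · rintro ⟨π, τ⟩ hx ⟨π', τ'⟩ hx' heq
    simp only [coe_product, Set.mem_prod, mem_coe, mem_filter] at hx hx'
    simp only [Prod.mk.injEq] at heq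
    obtain ⟨he1, he2⟩ := heq
    obtain ⟨p1, -⟩ := sigL_prop e.toList τ τ.injective hi1 hi2
    obtain ⟨p1', -⟩ := sigL_prop e.toList τ' τ'.injective hi1 hi2
    have hag : ∀ x ∈ e.toList, τ x.1 = τ' x.1 := by
      intro x hx0
      have hx1 := mem_toList.1 hx0
      have e2 := congrArg (fun q : P ≃ V => q x.1) he2
      simp only [Equiv.trans_apply] at e2
      rw [hx.1.2 x hx1, hx'.1.2 x hx1, p1 x hx0, p1' x hx0] at e2
      exact e2
    have hsig : sigL e.toList τ = sigL e.toList τ' := sigL_congr _ _ _ hag
    rw [hsig] at he1 he2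
    have hτ : τ = τ' := by
      ext p
      have e1 := congrArg (fun q : P ≃ V => q p) he1
      simp only [Equiv.trans_apply] at e1
      exact (sigL e.toList τ').symm.injective e1
    have hπ : π = π' := by
      ext p
      have e1 := congrArg (fun q : P ≃ V => q p) he2
      simp only [Equiv.trans_apply] at e1
      exact (sigL e.toList τ').injective e1
    rw [hπ, hτ]

/-- probability of an event -/
noncomputable def pr (cP : P → C) (cV : V → C) (e : Finset (P × V)) : ℝ :=
  (((SC cP cV).filter fun π => Sat π e).card : ℝ) / ((SC cP cV).card : ℝ)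

theorem pr_nonneg (cP : P → C) (cV : V → C) (e : Finset (P × V)) : 0 ≤ pr cP cV e := by
  unfold pr; positivity

theorem AV_insert (cP : P → C) (cV : V → C) (e : Finset (P × V))
    (B : Finset (Finset (P × V))) :
    (AV cP cV B).card = (AV cP cV (insert e B)).card +
      ((AV cP cV B).filter fun π => Sat π e).card := by
  have : AV cP cV (insert e B) = (AV cP cV B).filter fun π => ¬ Sat π e := by
    ext π
    simp only [AV, mem_filter, mem_insert, forall_eq_or_imp]
    tauto
  rw [this, add_comm, card_filter_add_card_filter_not]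

theorem AV_union (cP : P → C) (cV : V → C) (B B' : Finset (Finset (P × V))) :
    (AV cP cV B).card ≤ (AV cP cV (B ∪ B')).card +
      ∑ f ∈ B', ((AV cP cV B).filter fun π => Sat π f).card := by
  have h : AV cP cV B ⊆ AV cP cV (B ∪ B') ∪
      B'.biUnion fun f => (AV cP cV B).filter fun π => Sat π f := by
    intro π hπ
    by_cases h : ∃ f ∈ B', Sat π f
    · obtain ⟨f, hf, hs⟩ := h
      exact mem_union_right _ (mem_biUnion.2 ⟨f, hf, mem_filter.2 ⟨hπ, hs⟩⟩)
    · push Not at h
      refine mem_union_left _ (mem_filter.2 ⟨(mem_filter.1 hπ).1, fun f hf => ?_⟩)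
      rcases mem_union.1 hf with hf | hf
      · exact (mem_filter.1 hπ).2 f hf
      · exact h f hf
  calc (AV cP cV B).card ≤ _ := card_le_card h
    _ ≤ _ := card_union_le _ _
    _ ≤ _ := by gcongr; exact card_biUnion_le

theorem AV_mono (cP : P → C) (cV : V → C) {B B' : Finset (Finset (P × V))} (h : B ⊆ B') :
    AV cP cV B' ⊆ AV cP cV B := by
  intro π hπ
  exact mem_filter.2 ⟨(mem_filter.1 hπ).1, fun f hf => (mem_filter.1 hπ).2 f (h hf)⟩

theorem lll_aux (cP : P → C) (cV : V → C) (I : Finset (Finset (P × V)))
    (hS : (SC cP cV).Nonempty)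
    (h1 : ∀ e ∈ I, pr cP cV e ≤ 1 / 4)
    (h2 : ∀ e ∈ I, ∑ f ∈ I.filter (fun f => Conf e f), pr cP cV f ≤ 1 / 4) :
    ∀ m : ℕ, ∀ J ⊆ I, J.card = m → 0 < (AV cP cV J).card ∧
      ∀ e ∈ I, (((AV cP cV J).filter fun π => Sat π e).card : ℝ) ≤
        2 * pr cP cV e * ((AV cP cV J).card : ℝ) := by
  intro m
  induction m using Nat.strong_induction_on with
  | _ m ih =>
    intro J hJ hm
    have hS' : (0 : ℝ) < ((SC cP cV).card : ℝ) := by exact_mod_cast card_pos.2 hS
    have hpr : ∀ e : Finset (P × V), ∀ B : Finset (Finset (P × V)), (∀ f ∈ B, ¬ Conf e f) →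
        (((AV cP cV B).filter fun π => Sat π e).card : ℝ) ≤
          pr cP cV e * ((AV cP cV B).card : ℝ) := by
      intro e B hB
      have := lop cP cV e B hB
      have h' : ((((AV cP cV B).filter fun π => Sat π e).card : ℝ)) * ((SC cP cV).card : ℝ) ≤
        (((SC cP cV).filter fun π => Sat π e).card : ℝ) * ((AV cP cV B).card : ℝ) := by
        exact_mod_cast this
      unfold pr
      rw [div_mul_eq_mul_div, le_div_iff₀ hS']
      exact h'
    have hpos : 0 < (AV cP cV J).card := by
      rcases J.eq_empty_or_nonempty with rfl | ⟨j, hj⟩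
      · have : AV cP cV ∅ = SC cP cV := by
          ext π; simp [AV]
        rw [this]; exact card_pos.2 hS
      · have hJ' : insert j (J.erase j) = J := insert_erase hj
        have hc : (J.erase j).card < m := by
          rw [← hm]; exact card_erase_lt_of_mem hj
        obtain ⟨q1, q2⟩ := ih _ hc (J.erase j) ((erase_subset _ _).trans hJ) rfl
        have q3 := q2 j (hJ hj)
        have q4 := AV_insert cP cV j (J.erase j)
        rw [hJ'] at q4
        have q5 := h1 j (hJ hj)
        have q6 : (0 : ℝ) < ((AV cP cV (J.erase j)).card : ℝ) := by exact_mod_cast q1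
        have q7 : ((AV cP cV (J.erase j)).card : ℝ) = ((AV cP cV J).card : ℝ) +
            (((AV cP cV (J.erase j)).filter fun π => Sat π j).card : ℝ) := by exact_mod_cast q4
        have q8 : (0 : ℝ) < ((AV cP cV J).card : ℝ) := by nlinarith
        exact_mod_cast q8
    refine ⟨hpos, fun e he => ?_⟩
    have hprn := pr_nonneg cP cV e
    set J1 := J.filter (fun f => Conf e f) with hJ1
    set J2 := J.filter (fun f => ¬ Conf e f) with hJ2
    have hun : J2 ∪ J1 = J := by
      rw [hJ1, hJ2, union_comm]; exact filter_union_filter_not_eq _ _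
    have hn : ∀ f ∈ J2, ¬ Conf e f := fun f hf => (mem_filter.1 hf).2
    rcases J1.eq_empty_or_nonempty with h0 | h0
    · have hJ2' : J2 = J := by rw [← hun, h0, union_empty]
      have := hpr e J2 hn
      rw [hJ2'] at this
      have hc : (0 : ℝ) ≤ ((AV cP cV J).card : ℝ) := by positivity
      nlinarith [mul_nonneg hprn hc]
    · have hJ2I : J2 ⊆ I := (filter_subset _ _).trans hJ
      have hc : J2.card < m := by
        rw [← hm]
        apply card_lt_card
        rw [ssubset_iff_of_subset (filter_subset _ _)]
        obtain ⟨j, hj⟩ := h0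
        exact ⟨j, (mem_filter.1 hj).1, fun hj2 => (mem_filter.1 hj2).2 (mem_filter.1 hj).2⟩
      obtain ⟨q1, q2⟩ := ih _ hc J2 hJ2I rfl
      have hu := AV_union cP cV J2 J1
      rw [hun] at hu
      have hu' : ((AV cP cV J2).card : ℝ) ≤ ((AV cP cV J).card : ℝ) +
          ∑ f ∈ J1, (((AV cP cV J2).filter fun π => Sat π f).card : ℝ) := by exact_mod_cast hu
      have hsum : ∑ f ∈ J1, (((AV cP cV J2).filter fun π => Sat π f).card : ℝ) ≤
          1 / 2 * ((AV cP cV J2).card : ℝ) := by
        calc ∑ f ∈ J1, (((AV cP cV J2).filter fun π => Sat π f).card : ℝ)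
            ≤ ∑ f ∈ J1, 2 * pr cP cV f * ((AV cP cV J2).card : ℝ) :=
              sum_le_sum fun f hf => q2 f (hJ (mem_filter.1 hf).1)
          _ = 2 * (∑ f ∈ J1, pr cP cV f) * ((AV cP cV J2).card : ℝ) := by
              rw [← sum_mul, ← mul_sum]
          _ ≤ 2 * (1 / 4) * ((AV cP cV J2).card : ℝ) := by
              gcongr
              calc ∑ f ∈ J1, pr cP cV f ≤ ∑ f ∈ I.filter (fun f => Conf e f), pr cP cV f := by
                    apply sum_le_sum_of_subset_of_nonneg
                    · exact filter_subset_filter _ hJ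
                    · intro f _ _; exact pr_nonneg _ _ _
                _ ≤ 1 / 4 := h2 e he
          _ = 1 / 2 * ((AV cP cV J2).card : ℝ) := by ring
      have hhalf : ((AV cP cV J2).card : ℝ) ≤ 2 * ((AV cP cV J).card : ℝ) := by linarith
      have hm1 : (((AV cP cV J).filter fun π => Sat π e).card : ℝ) ≤
          (((AV cP cV J2).filter fun π => Sat π e).card : ℝ) := by
        have : (AV cP cV J).filter (fun π => Sat π e) ⊆
            (AV cP cV J2).filter fun π => Sat π e :=
          filter_subset_filter _ (AV_mono cP cV (filter_subset _ _))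
        exact_mod_cast card_le_card this
      have hm2 := hpr e J2 hn
      have : pr cP cV e * ((AV cP cV J2).card : ℝ) ≤
          pr cP cV e * (2 * ((AV cP cV J).card : ℝ)) := by gcongr
      linarith

/-- Lopsided local lemma for colour preserving bijections. -/
theorem lll (cP : P → C) (cV : V → C) (I : Finset (Finset (P × V)))
    (hS : (SC cP cV).Nonempty)
    (h1 : ∀ e ∈ I, pr cP cV e ≤ 1 / 4)
    (h2 : ∀ e ∈ I, ∑ f ∈ I.filter (fun f => Conf e f), pr cP cV f ≤ 1 / 4) :
    ∃ π : P ≃ V, (∀ p, cV (π p) = cP p) ∧ ∀ e ∈ I, ¬ Sat π e := by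
  obtain ⟨π, hπ⟩ := card_pos.1 (lll_aux cP cV I hS h1 h2 I.card I (Subset.refl _) rfl).1
  obtain ⟨a, b⟩ := mem_filter.1 hπ
  exact ⟨π, (mem_filter.1 a).2, b⟩

/-- One more pair costs a factor. -/
theorem sat_insert (cP : P → C) (cV : V → C) (e : Finset (P × V)) (x : P × V) (hx : x ∉ e)
    (N : ℕ) (hN : N ≤ (univ.filter fun v => cV v = cP x.1).card) :
    ((SC cP cV).filter fun π => Sat π (insert x e)).card * (N - e.card) ≤
      ((SC cP cV).filter fun π => Sat π e).card := by
  set W := (univ.filter fun v => cV v = cP x.1) \ e.image Prod.snd with hW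
  have hWc : N - e.card ≤ W.card := by
    have h1 := le_card_sdiff (e.image Prod.snd) (univ.filter fun v => cV v = cP x.1)
    have h2 : (e.image Prod.snd).card ≤ e.card := card_image_le
    rw [hW]
    omega
  calc ((SC cP cV).filter fun π => Sat π (insert x e)).card * (N - e.card)
      ≤ ((SC cP cV).filter fun π => Sat π (insert x e)).card * W.card :=
        Nat.mul_le_mul_left _ hWc
    _ = (((SC cP cV).filter fun π => Sat π (insert x e)) ×ˢ W).card := (card_product _ _).symm
    _ ≤ ((SC cP cV).filter fun π => Sat π e).card := by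
      apply card_le_card_of_injOn (fun y => y.1.trans (Equiv.swap x.2 y.2))
      · rintro ⟨π, w⟩ hy
        simp only [coe_product, Set.mem_prod, mem_coe, mem_filter] at hy
        obtain ⟨⟨hπ, hs⟩, hw⟩ := hy
        rw [hW, mem_sdiff, mem_filter] at hw
        have hπc := (mem_filter.1 hπ).2
        have hsx := hs x (mem_insert_self _ _)
        have hcx : cV x.2 = cP x.1 := by rw [← hsx]; exact hπc _
        refine mem_coe.2 (mem_filter.2 ⟨mem_filter.2 ⟨mem_univ _, fun p => ?_⟩, ?_⟩)
        · simp only [Equiv.trans_apply]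
          by_cases a1 : π p = x.2
          · rw [a1, Equiv.swap_apply_left, hw.1.2]
            have : p = x.1 := π.injective (by rw [a1, hsx])
            rw [this]
          · by_cases a2 : π p = w
            · rw [a2, Equiv.swap_apply_right, hcx, ← hπc p, a2, hw.1.2]
            · rw [Equiv.swap_apply_of_ne_of_ne a1 a2]; exact hπc p
        · intro y hy
          simp only [Equiv.trans_apply]
          rw [hs y (mem_insert_of_mem hy)]
          apply Equiv.swap_apply_of_ne_of_ne
          · intro hc
            apply hx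
            have : y.1 = x.1 := by
              apply π.injective
              rw [hs y (mem_insert_of_mem hy), hsx, hc]
            have hyx : y = x := Prod.ext this hc
            rw [← hyx]; exact hy
          · intro hc
            exact hw.2 (mem_image.2 ⟨y, hy, hc⟩)
      · rintro ⟨π, w⟩ hy ⟨π', w'⟩ hy' heq
        simp only [coe_product, Set.mem_prod, mem_coe, mem_filter] at hy hy'
        simp only at heq
        have hsx := hy.1.2 x (mem_insert_self _ _)
        have hsx' := hy'.1.2 x (mem_insert_self _ _)
        have hww : w = w' := by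
          have := congrArg (fun q : P ≃ V => q x.1) heq
          simp only [Equiv.trans_apply, hsx, hsx', Equiv.swap_apply_left] at this
          exact this
        subst hww
        have hππ : π = π' := by
          ext p
          have := congrArg (fun q : P ≃ V => q p) heq
          simp only [Equiv.trans_apply] at this
          exact (Equiv.swap x.2 w).injective this
        rw [hππ]

/-- The probability of an event with `d` pairs is at most `(2 / N) ^ d`. -/
theorem pr_le (cP : P → C) (cV : V → C) (hS : (SC cP cV).Nonempty) (N : ℕ) (hN0 : 0 < N)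
    (hN : ∀ p, N ≤ (univ.filter fun v => cV v = cP p).card) (e : Finset (P × V))
    (he : 2 * e.card ≤ N) : pr cP cV e ≤ (2 / (N : ℝ)) ^ e.card := by
  induction e using Finset.induction_on with
  | empty =>
    unfold pr
    simp only [card_empty, pow_zero]
    apply div_le_one_of_le₀ _ (by positivity)
    exact_mod_cast card_filter_le _ _
  | insert x e hx ih =>
    rw [card_insert_of_notMem hx] at he ⊢
    have ih' := ih (by omega)
    have h := sat_insert cP cV e x hx N (hN x.1)
    have hS' : (0 : ℝ) < ((SC cP cV).card : ℝ) := by exact_mod_cast card_pos.2 hS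
    have hNe : (N : ℝ) / 2 ≤ ((N - e.card : ℕ) : ℝ) := by
      rw [Nat.cast_sub (by omega)]
      have : (2 * (e.card + 1) : ℝ) ≤ N := by exact_mod_cast he
      linarith
    have hNp : (0 : ℝ) < (N : ℝ) := by exact_mod_cast hN0
    have h' : (((SC cP cV).filter fun π => Sat π (insert x e)).card : ℝ) *
        ((N - e.card : ℕ) : ℝ) ≤ (((SC cP cV).filter fun π => Sat π e).card : ℝ) := by
      exact_mod_cast h
    have h3 : (((SC cP cV).filter fun π => Sat π (insert x e)).card : ℝ) * ((N : ℝ) / 2) ≤
        (((SC cP cV).filter fun π => Sat π e).card : ℝ) :=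
      le_trans (by gcongr) h'
    have h4 : (((SC cP cV).filter fun π => Sat π (insert x e)).card : ℝ) ≤
        2 / (N : ℝ) * (((SC cP cV).filter fun π => Sat π e).card : ℝ) := by
      rw [div_mul_eq_mul_div, le_div_iff₀ hNp]
      linarith
    calc pr cP cV (insert x e) ≤ 2 / (N : ℝ) * pr cP cV e := by
          unfold pr
          rw [← mul_div_assoc]
          gcongr
      _ ≤ 2 / (N : ℝ) * (2 / (N : ℝ)) ^ e.card := by gcongr
      _ = (2 / (N : ℝ)) ^ (e.card + 1) := by ring

end Pool.Agent.THC.H5
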